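import Pool.Agent.R489.HB.Stm

/-! HB-MLIFT (helper656): the lifted edges are independent and do not span the kernel vector. -/

set_option autoImplicit false

namespace Pool.Agent.R656.HB

open Finset Pool.Agent.R489.HB

section

variable {W : Type} [DecidableEq W]

lemma card_edg {Φ : Finset (Finset W)} {e : Finset W} (he : e ∈ edg Φ) : e.card = 2 := by
  unfold edg at he
  obtain ⟨f, -, hf⟩ := Finset.mem_biUnion.1 he
  exact (Finset.mem_powersetCard.1 hf).2

/-- the projection -/
def prj (T : Finset W) (u v : W) : (W → ZMod 2) →ₗ[ZMod 2] (W → ZMod 2) where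
  toFun g := fun x => if x = v then 0 else g x + (if x = u ∧ u ∉ T then g v else 0)
  map_add' g h := by
    funext x
    simp only [Pi.add_apply]
    split_ifs <;> ring
  map_smul' c g := by
    funext x
    simp only [Pi.smul_apply, smul_eq_mul, RingHom.id_apply]
    split_ifs <;> ring

lemma prj_apply (T : Finset W) (u v : W) (g : W → ZMod 2) (x : W) :
    prj T u v g x = if x = v then 0 else g x + (if x = u ∧ u ∉ T then g v else 0) := rfl

lemma mv_pair {u v b : W} (hb : b ≠ v) : mv u v {v, b} = {u, b} := by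
  unfold mv
  rw [if_pos (Finset.mem_insert_self _ _), Finset.erase_insert (by simp [hb.symm])]

lemma edge_cases {e : Finset W} {v : W} (he : e.card = 2) (hv : v ∈ e) :
    ∃ b, b ≠ v ∧ e = {v, b} := by
  obtain ⟨x, y, hxy, rfl⟩ := Finset.card_eq_two.1 he
  rcases Finset.mem_insert.1 hv with h | h
  · exact ⟨y, by rw [h]; exact hxy.symm, by rw [h]⟩
  · rw [Finset.mem_singleton] at h
    exact ⟨x, by rw [h]; exact hxy, by rw [h, Finset.pair_comm]⟩

lemma prj_vec (T : Finset W) (a : W → Fin 3) (i : Fin 3) (u v : W) (e : Finset W)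
    (huv : u ≠ v) (hvT : v ∉ T) (hauv : a u = a v) (hcard : e.card = 2) (hne : e ≠ {u, v}) :
    prj T u v (vec T a i e) = vec T a i (mv u v e) := by
  by_cases hve : v ∈ e
  · obtain ⟨b, hbv, rfl⟩ := edge_cases hcard hve
    have hbu : b ≠ u := by
      rintro rfl
      exact hne (Finset.pair_comm _ _)
    rw [mv_pair hbv]
    have hA : (∀ y ∈ ({v, b} : Finset W), a y ≠ i) ↔ (∀ y ∈ ({u, b} : Finset W), a y ≠ i) := by
      simp [hauv]
    have hB : (∃ y ∈ ({v, b} : Finset W), a y ≠ i) ↔ (∃ y ∈ ({u, b} : Finset W), a y ≠ i) := by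
      simp [hauv]
    funext x
    rw [prj_apply]
    unfold vec
    simp only [hA, hB]
    by_cases hxv : x = v
    · subst hxv
      rw [if_pos rfl, if_neg]
      rintro ⟨h, -⟩
      simp only [Finset.mem_insert, Finset.mem_singleton] at h
      rcases h with h | h
      · exact huv h.symm
      · exact hbv h.symm
    · rw [if_neg hxv]
      by_cases hxu : x = u
      · subst hxu
        have h1 : x ∉ ({v, b} : Finset W) := by
          simp only [Finset.mem_insert, Finset.mem_singleton, not_or]
          exact ⟨hxv, hbu.symm⟩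
        rw [if_neg (fun h => h1 h.1), zero_add]
        by_cases hxT : x ∈ T
        · rw [if_neg (fun h => h.2 hxT), if_neg (fun h => h.2.1 hxT)]
        · rw [if_pos ⟨rfl, hxT⟩]
          congr 1
          simp only [Finset.mem_insert, true_or, hvT, hxT, not_false_eq_true, true_and, hauv]
      · have h9 : x ∈ ({v, b} : Finset W) ↔ x ∈ ({u, b} : Finset W) := by simp [hxu, hxv]
        simp only [hxu, false_and, if_false, add_zero]
        exact if_congr (and_congr_left' h9) rfl rfl
  · have h1 : mv u v e = e := by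
      unfold mv
      rw [if_neg hve]
    rw [h1]
    have h2 : vec T a i e v = 0 := by
      unfold vec
      rw [if_neg (fun h => hve h.1)]
    funext x
    rw [prj_apply, h2]
    by_cases hxv : x = v
    · rw [if_pos hxv, hxv, h2]
    · rw [if_neg hxv]
      simp

lemma prj_kap (T : Finset W) (u v : W) (huv : u ≠ v) (hvT : v ∉ T) :
    prj T u v (kap T u v) = 0 := by
  funext x
  rw [prj_apply, Pi.zero_apply]
  unfold kap
  by_cases hxv : x = v
  · rw [if_pos hxv]
  · rw [if_neg hxv]
    by_cases hxu : x = u
    · subst hxu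
      by_cases hxT : x ∈ T
      · rw [if_neg (fun h => h.1 hxT), if_neg (fun h => h.2 hxT), add_zero]
      · rw [if_pos ⟨hxT, Or.inl rfl⟩, if_pos ⟨rfl, hxT⟩, if_pos ⟨hvT, Or.inr rfl⟩]
        decide
    · rw [if_neg (fun h => by rcases h.2 with h | h <;> contradiction), if_neg (fun h => hxu h.1),
        add_zero]

end

theorem MLIFT : S_CONE → S_MLIFT := by
  intro hCONE W _ Φ T a u v y1 y2 l1 l2 g1 g2 h1 h2 c' i hTri hT huv hvT huvE hauv hGood h5 hApx
    hl1 hl2 hInd
  obtain ⟨-, hEdg⟩ := hCONE W Φ u v hTri huv huvE hGood h5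
  set L := lifted Φ T u v y1 y2 l1 l2 c' i with hL
  have hinj : Set.InjOn (mv u v) L := by
    have key : ∀ e ∈ L, ∀ e' ∈ L, v ∉ e → v ∈ e' → mv u v e = mv u v e' → False := by
      rintro e ⟨he1, he2, he3, he4, -, -⟩ e' ⟨he1', he2', he3', he4', -, -⟩ hv hv' hmv
      obtain ⟨b, hbv, rfl⟩ := edge_cases (card_edg he1') hv'
      have hbu : b ≠ u := by
        rintro rfl
        exact he2' (Finset.pair_comm _ _)
      rw [mv_pair hbv] at hmv
      have h1' : mv u v e = e := by
        unfold mv
        rw [if_neg hv]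
      rw [h1'] at hmv
      subst hmv
      rcases (hApx.common b hbu hbv).1 ⟨he1, he1'⟩ with h | h
      · subst h
        rcases hl1 with h' | h'
        · exact he3 (by rw [h'])
        · exact he3' (by rw [h'])
      · subst h
        rcases hl2 with h' | h'
        · exact he4 (by rw [h'])
        · exact he4' (by rw [h'])
    intro e he e' he' hmv
    by_cases hv : v ∈ e
    · by_cases hv' : v ∈ e'
      · obtain ⟨b, hbv, rfl⟩ := edge_cases (card_edg he.1) hv
        obtain ⟨b', hbv', rfl⟩ := edge_cases (card_edg he'.1) hv'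
        rw [mv_pair hbv, mv_pair hbv'] at hmv
        have hbu : b ≠ u := by
          rintro rfl
          exact he.2.1 (Finset.pair_comm _ _)
        have h3 : b ∈ ({u, b'} : Finset W) := by
          rw [← hmv]
          simp
        simp only [Finset.mem_insert, Finset.mem_singleton] at h3
        rcases h3 with h3 | h3
        · exact absurd h3 hbu
        · rw [h3]
      · exact (key e' he' e he hv' hv hmv.symm).elim
    · by_cases hv' : v ∈ e'
      · exact (key e he e' he' hv hv' hmv).elim
      · unfold mv at hmv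
        rwa [if_neg hv, if_neg hv'] at hmv
  have himg : mv u v '' L ⊆ {e : Finset W | e ∈ edg (contr u v Φ) ∧ ¬ e ⊆ T ∧ c' e = i} := by
    rintro _ ⟨e, he, rfl⟩
    refine ⟨?_, he.2.2.2.2.1, he.2.2.2.2.2⟩
    rw [hEdg]
    exact Finset.mem_image_of_mem _ (Finset.mem_erase.2 ⟨he.2.1, he.1⟩)
  have hind1 : LinearIndepOn (ZMod 2) (vec T a i) (mv u v '' L) := hInd.mono himg
  have hind2 : LinearIndepOn (ZMod 2) (vec T a i ∘ mv u v) L := hind1.comp_of_image hinj
  have hind3 : LinearIndependent (ZMod 2)
      ((prj T u v) ∘ (fun e : L => vec T a i (e : Finset W))) := by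
    have : ((prj T u v) ∘ (fun e : L => vec T a i (e : Finset W))) =
        fun e : L => (vec T a i ∘ mv u v) (e : Finset W) := by
      funext e
      exact prj_vec T a i u v e.1 huv hvT hauv (card_edg e.2.1) e.2.2.1
    rw [this]
    exact hind2
  refine ⟨hind3.of_comp _, fun hmem => ?_⟩
  have hdis := Submodule.range_ker_disjoint hind3
  have h6 : Set.range (fun e : L => vec T a i (e : Finset W)) = vec T a i '' L := by
    rw [Set.image_eq_range]
  rw [h6] at hdis
  have h7 : kap T u v = 0 :=
    (Submodule.disjoint_def.1 hdis) _ hmem (LinearMap.mem_ker.2 (prj_kap T u v huv hvT))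
  have h8 := congrFun h7 v
  unfold kap at h8
  rw [if_pos ⟨hvT, Or.inr rfl⟩] at h8
  exact one_ne_zero h8

end Pool.Agent.R656.HB
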